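import Mathlib.Data.Nat.Notation

set_option autoImplicit false

/-!
# The certificate: evaluation

Written with raw recursors and raw operations on `Nat` (fast in the kernel).  A vertex is a list of
homogeneous coordinates `(x, h)`, a simplex a list of vertices.
-/

namespace Pool.Agent.Work.MP_122e00_nt.Sharp.Cx

noncomputable section

/-! ### lists -/

/-- sum -/
def sm (l : List ℕ) : ℕ := @List.rec ℕ (fun _ => ℕ) 0 (fun a _ ih => Nat.add a ih) l

/-- head -/
def hd (l : List ℕ) : ℕ := @List.rec ℕ (fun _ => ℕ) 0 (fun a _ _ => a) l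

/-- tail -/
def tl (l : List ℕ) : List ℕ := @List.rec ℕ (fun _ => List ℕ) [] (fun _ t _ => t) l

/-- head of a list of lists -/
def hdL (l : List (List ℕ)) : List ℕ := @List.rec (List ℕ) (fun _ => List ℕ) [] (fun a _ _ => a) l

/-- tail of a list of lists -/
def tlL (l : List (List ℕ)) : List (List ℕ) :=
  @List.rec (List ℕ) (fun _ => List (List ℕ)) [] (fun _ t _ => t) l

/-- map -/
def mp (f : ℕ → ℕ) (l : List ℕ) : List ℕ :=
  @List.rec ℕ (fun _ => List ℕ) [] (fun a _ ih => List.cons (f a) ih) l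

/-- map -/
def mpL (f : List ℕ → ℕ) (l : List (List ℕ)) : List ℕ :=
  @List.rec (List ℕ) (fun _ => List ℕ) [] (fun a _ ih => List.cons (f a) ih) l

/-- all -/
def allL (f : List ℕ → Bool) (l : List (List ℕ)) : Bool :=
  @List.rec (List ℕ) (fun _ => Bool) true (fun a _ ih => cond (f a) ih false) l

/-- product of two vectors -/
def dot (p w : List ℕ) : ℕ :=
  @List.rec ℕ (fun _ => List ℕ → ℕ) (fun _ => 0)
    (fun a _ ih w => Nat.add (Nat.mul a (hd w)) (ih (tl w))) p w

/-- element -/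
def nth (l : List (List ℕ)) (i : ℕ) : List ℕ :=
  @Nat.rec (fun _ => List (List ℕ) → List ℕ) hdL (fun _ ih l => ih (tlL l)) i l

/-- replace an element -/
def setn (w : List ℕ) (i : ℕ) (l : List (List ℕ)) : List (List ℕ) :=
  @Nat.rec (fun _ => List (List ℕ) → List (List ℕ)) (fun l => List.cons w (tlL l))
    (fun _ ih l => List.cons (hdL l) (ih (tlL l))) i l

/-- least common multiple -/
def lcms (l : List ℕ) : ℕ :=
  @List.rec ℕ (fun _ => ℕ) 1 (fun a _ ih => Nat.div (Nat.mul a ih) (Nat.gcd a ih)) l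

/-- maximum -/
def mxs (l : List ℕ) : ℕ :=
  @List.rec ℕ (fun _ => ℕ) 0 (fun a _ ih => cond (Nat.ble a ih) ih a) l

/-- minimum -/
def mns (a : ℕ) (l : List ℕ) : ℕ :=
  @List.rec ℕ (fun _ => ℕ) a (fun a _ ih => cond (Nat.ble a ih) a ih) l

/-- quotient, rounded up -/
def cdiv (a b : ℕ) : ℕ := Nat.div (Nat.add a (Nat.sub b 1)) b

/-! ### cuts -/

/-- the point `(A P + B Q) / g` -/
def cmb (A B g : ℕ) (P Q : List ℕ) : List ℕ :=
  @List.rec ℕ (fun _ => List ℕ → List ℕ) (fun _ => [])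
    (fun p _ ih Q => List.cons (Nat.div (Nat.add (Nat.mul A p) (Nat.mul B (hd Q))) g) (ih (tl Q))) P Q

/-- check of `g w = A P + B Q` -/
def chk (A B g : ℕ) (P Q w : List ℕ) : Bool :=
  @List.rec ℕ (fun _ => List ℕ → List ℕ → Bool) (fun _ _ => true)
    (fun p _ ih Q w => cond (Nat.beq (Nat.mul g (hd w)) (Nat.add (Nat.mul A p) (Nat.mul B (hd Q))))
      (ih (tl Q) (tl w)) false) P Q w

/-! ### linear forms -/

/-- the coefficients of `∑_{i ∈ S} x_i + h_q` -/
def uv (k q S : ℕ) : List ℕ :=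
  @Nat.rec (fun _ => ℕ → List ℕ)
    (fun _ => [cond (Nat.beq q 0) 1 0, cond (Nat.beq q 1) 1 0, cond (Nat.beq q 2) 1 0])
    (fun _ ih S => List.cons (Nat.mod S 2) (ih (Nat.div S 2))) k S

/-- `2 ^ (k - |S|)` -/
def wtf (k S : ℕ) : ℕ :=
  @Nat.rec (fun _ => ℕ → ℕ) (fun _ => 1)
    (fun _ ih S => cond (Nat.beq (Nat.mod S 2) 0) (Nat.mul 2 (ih (Nat.div S 2))) (ih (Nat.div S 2)))
    k S

/-- add `w (7 - 6 u)` to a linear form -/
def addf (w : ℕ) (u f : List ℕ) : List ℕ :=
  @List.rec ℕ (fun _ => List ℕ → List ℕ) (fun _ => [])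
    (fun a _ ih f => List.cons (Nat.add (hd f) (Nat.mul w (Nat.sub 7 (Nat.mul 6 a)))) (ih (tl f))) u f

/-- `2 b ≥ T` at a vertex -/
def geb (u p : List ℕ) : Bool := Nat.ble (sm p) (Nat.mul 2 (dot p u))

/-- `2 b ≤ T` at a vertex -/
def leb (u p : List ℕ) : Bool := Nat.ble (Nat.mul 2 (dot p u)) (sm p)

/-! ### tables -/

/-- new row: `new e = old e + L * prev e + γ * new (e - 1)` -/
def row (L g : ℕ) (old : List ℕ) : List ℕ → ℕ → List ℕ :=
  @List.rec ℕ (fun _ => List ℕ → ℕ → List ℕ) (fun _ _ => [])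
    (fun a _ ih prev c =>
      (fun n => List.cons n (ih (tl prev) n)) (Nat.add (Nat.add a (Nat.mul L (hd prev)))
        (Nat.mul g c))) old

/-- one vertex -/
def step (L g : ℕ) (tab : List (List ℕ)) : List ℕ → List (List ℕ) :=
  @List.rec (List ℕ) (fun _ => List ℕ → List (List ℕ)) (fun _ => [])
    (fun old _ ih prev => (fun r => List.cons r (ih r)) (row L g old prev 0)) tab

/-- all vertices -/
def tabs (Ls gs : List ℕ) (t0 : List (List ℕ)) : List (List ℕ) :=
  @List.rec ℕ (fun _ => List ℕ → List (List ℕ) → List (List ℕ)) (fun _ t => t)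
    (fun L _ ih gs t => ih (tl gs) (step L (hd gs) t [])) Ls gs t0

/-- last row -/
def last (l : List (List ℕ)) : List ℕ :=
  @List.rec (List ℕ) (fun _ => List ℕ → List ℕ) (fun d => d) (fun a _ ih _ => ih a) l []

/-- zeros -/
def zr (n : ℕ) : List ℕ := @Nat.rec (fun _ => List ℕ) [] (fun _ ih => List.cons 0 ih) n

/-- the table for no vertex -/
def t0 (D : ℕ) : List (List ℕ) :=
  List.cons [1, 0, 0, 0] (@Nat.rec (fun _ => List (List ℕ)) []
    (fun _ ih => List.cons [0, 0, 0, 0] ih) D)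

/-! ### classes and weights -/

/-- The data of a class. -/
structure Cl where
  /-- number of visible marks -/
  k : ℕ
  /-- degree of the density -/
  D : ℕ
  /-- slots of the marks -/
  ws : List ℕ
  /-- slot of the exact parts -/
  wS : ℕ
  /-- largest slot -/
  mx : ℕ
  /-- factors of the marks which are not the last one: `lf / (a + 1)` -/
  fx : List ℕ
  /-- factors of the last mark -/
  fz : List ℕ
  /-- weights `0` or `1` of the three parts in the exact part `S` -/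
  us : List ℕ
  /-- numerator of the constant -/
  cn : ℕ
  /-- denominator of the constant -/
  cd : ℕ

/-- element of a list of numbers -/
def nthN (l : List ℕ) (i : ℕ) : ℕ :=
  @Nat.rec (fun _ => List ℕ → ℕ) hd (fun _ ih l => ih (tl l)) i l

/-- the sum over the exponents of the last mark and of the exact part; total degree `d` -/
def gz (fz : List ℕ) (wz wS mx bits s : ℕ) (d p g : ℕ) : ℕ :=
  cond (Nat.beq s 0) (Nat.mul (Nat.mul g (nthN fz d)) (Nat.pow 2 (Nat.mul bits (Nat.sub mx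
    (Nat.add p (Nat.mul wz d))))))
  (@List.rec ℕ (fun _ => ℕ → ℕ → ℕ) (fun _ _ => 0)
    (fun r _ ih d p => Nat.add (Nat.mul (Nat.mul g r) (Nat.pow 2 (Nat.mul bits (Nat.sub mx
      (Nat.add p (Nat.mul wS d))))))
      (cond (Nat.beq d 0) 0 (ih (Nat.sub d 1) (Nat.add p wz)))) fz d p)

/-- the sum over the exponents of all marks: reversed density, evaluated at `2 ^ bits` -/
def gx (fx fz : List ℕ) (wS mx bits s : ℕ) (ws : List ℕ) : ℕ → ℕ → ℕ → ℕ :=
  @List.rec ℕ (fun _ => ℕ → ℕ → ℕ → ℕ) (fun _ _ _ => 0)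
    (fun w ws ih d p g =>
      @List.rec ℕ (fun _ => ℕ → ℕ → ℕ → ℕ) (fun d p g => gz fz w wS mx bits s d p g)
        (fun _ _ _ d p g =>
          @List.rec ℕ (fun _ => ℕ → ℕ → ℕ) (fun _ _ => 0)
            (fun r _ ih2 d p => Nat.add (ih d p (Nat.mul g r))
              (cond (Nat.beq d 0) 0 (ih2 (Nat.sub d 1) (Nat.add p w)))) fx d p)
        ws d p g) ws

/-- the reversed density -/
def gt (c : Cl) (bits : ℕ) : ℕ := gx c.fx c.fz c.wS c.mx bits (sm c.us) c.ws c.D 0 1

/-- the weights of the coordinates -/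
def wl (bits wS : ℕ) (us ws : List ℕ) : List ℕ :=
  @List.rec ℕ (fun _ => List ℕ) (mp (fun u => Nat.mul u (Nat.pow 2 (Nat.mul bits wS))) us)
    (fun w _ ih => List.cons (Nat.pow 2 (Nat.mul bits w)) ih) ws

/-- factorial -/
def fac (n : ℕ) : ℕ := @Nat.rec (fun _ => ℕ) 1 (fun n ih => Nat.mul (Nat.succ n) ih) n

/-- binomial coefficient `choose (n + j) j`, by a product -/
def bin (n j : ℕ) : ℕ := Nat.div (fac (Nat.add n j)) (Nat.mul (fac n) (fac j))

/-! ### leaves -/

/-- the scale -/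
def Sc : ℕ := 1000000000000

/-- the value of the cubic bound, numerator; `P = 81 Dl ^ 2 N ^ 2` -/
def cub (Dl N F0 F1 F2 Y0 Y1 Y2 Y3 g0 g1 c : ℕ) : ℕ :=
  (fun P K => Nat.sub
    (Nat.add (Nat.mul P (Nat.add
      (Nat.mul (Nat.add (Nat.mul (Nat.mul 2 c) (Nat.mul g0 g1)) (Nat.mul (Nat.mul c c)
        (Nat.add g0 g1))) (Nat.mul F0 Y0))
      (Nat.mul (Nat.add (Nat.add g0 g1) (Nat.mul 2 c)) (Nat.mul F2 Y2))))
      (Nat.mul (Nat.mul 16 K) (Nat.mul F1 Y1)))
    (Nat.add (Nat.mul P (Nat.add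
      (Nat.mul (Nat.add (Nat.add (Nat.mul g0 g1) (Nat.mul (Nat.mul 2 c) (Nat.add g0 g1)))
        (Nat.mul c c)) (Nat.mul F1 Y1))
      (Nat.mul 6 Y3)))
      (Nat.mul (Nat.mul 72 (Nat.mul Dl (Nat.mul N K))) (Nat.mul F0 Y0))))
  (Nat.mul 81 (Nat.mul (Nat.mul Dl Dl) (Nat.mul N N))) (Nat.mul (Nat.mul g0 g1) (Nat.mul c c))

/-- the value of a leaf from the moments -/
def fin (cl : Cl) (t Dl g0 g1 Y0 Y1 Y2 Y3 : ℕ) : ℕ :=
  (fun e N => cond (Nat.beq g1 0)
    (cdiv (Nat.mul (Nat.mul Sc cl.cn) (Nat.mul (Nat.mul 2183 N)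
      (Nat.mul (Nat.mul (Nat.add e 3) (Nat.mul (Nat.add e 2) (Nat.add e 1))) Y0)))
      (Nat.mul (Nat.mul 2 cl.cd) (Nat.mul (Nat.pow Dl cl.D) (fac (Nat.add e 3)))))
    (cdiv (Nat.mul (Nat.mul Sc cl.cn)
      (cub Dl N (Nat.mul (Nat.add e 3) (Nat.mul (Nat.add e 2) (Nat.add e 1)))
        (Nat.mul (Nat.add e 3) (Nat.add e 2)) (Nat.mul 2 (Nat.add e 3)) Y0 Y1 Y2 Y3 g0 g1
        (Nat.add g0 (Nat.div (Nat.mul (Nat.sub g1 g0) t) 16))))
      (Nat.mul (Nat.mul (Nat.mul 36 Dl) (Nat.mul (Nat.mul g0 g1)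
        (Nat.mul (Nat.add g0 (Nat.div (Nat.mul (Nat.sub g1 g0) t) 16))
          (Nat.add g0 (Nat.div (Nat.mul (Nat.sub g1 g0) t) 16)))))
        (Nat.mul cl.cd (Nat.mul (Nat.pow Dl cl.D) (fac (Nat.add e 3)))))))
  (Nat.add (Nat.add cl.k 2) cl.D) (Nat.pow 3 cl.k)

/-- the slot `mx` of the product with the reversed density -/
def slot (G mx bits X : ℕ) : ℕ :=
  Nat.mod (Nat.div (Nat.mul X G) (Nat.pow 2 (Nat.mul bits mx))) (Nat.pow 2 bits)

/-- the value of a leaf from the last row of the table -/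
def lrow (cl : Cl) (t bits Dl g0 g1 : ℕ) (r : List ℕ) : ℕ :=
  fin cl t Dl g0 g1 (slot (gt cl bits) cl.mx bits (nthN r 0)) (slot (gt cl bits) cl.mx bits (nthN r 1))
    (slot (gt cl bits) cl.mx bits (nthN r 2)) (slot (gt cl bits) cl.mx bits (nthN r 3))

/-- the bound for the coefficients -/
def okb (cl : Cl) (bits Dl g1 : ℕ) : Bool :=
  Nat.blt (Nat.mul (Nat.mul (gt cl 0) (Nat.mul (bin cl.D 3) (bin (Nat.add cl.D 3) (Nat.add cl.k 2))))
    (Nat.mul (Nat.pow Dl cl.D) (Nat.pow (Nat.succ g1) 3))) (Nat.pow 2 bits)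

/-- the value of a leaf -/
def leafv (cl : Cl) (t bits : ℕ) (S : List (List ℕ)) (gf : List ℕ) : Option ℕ :=
  (fun Dl W =>
    (fun gs =>
      cond (allL (fun p => cond (Nat.beq (sm p) 0) false
          (Nat.beq (Nat.mul (Nat.div Dl (sm p)) (sm p)) Dl)) S)
        (cond (cond (Nat.beq (mns (hd gs) gs) 0) (cond (Nat.beq (mxs gs) 0)
            (okb cl bits Dl (mxs gs)) false) (okb cl bits Dl (mxs gs)))
          (some (lrow cl t bits Dl (mns (hd gs) gs) (mxs gs)
            (last (tabs (mpL (fun p => Nat.mul (Nat.div Dl (sm p)) (dot p W)) S) gs (t0 cl.D)))))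
          none) none)
    (mpL (fun p => Nat.mul (Nat.div Dl (sm p)) (dot p gf)) S))
  (lcms (mpL sm S)) (wl bits cl.wS cl.us cl.ws)

/-! ### the tree -/

/-- The certificate. -/
inductive Ct
  /-- leaf: type, node of the cubic, size of the slots -/
  | lf (b t bits : ℕ)
  /-- cut of an edge -/
  | ct (i j A B g : ℕ) (l r : Ct)
  /-- the linear form `(q, S)` is `≥ 1 / 2` (`st = 1`) or `≤ 1 / 2` (`st = 0`) -/
  | dc (q S st : ℕ) (t : Ct)

/-- weighted mean, rounded up -/
def avg (a b : ℕ) (x y : Option ℕ) : Option ℕ :=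
  @Option.rec ℕ (fun _ => Option ℕ) none (fun x =>
    @Option.rec ℕ (fun _ => Option ℕ) none (fun y =>
      some (cdiv (Nat.add (Nat.mul a x) (Nat.mul b y)) (Nat.add a b))) y) x

/-- Evaluation: `cls` gives the class for each type, `k` is the number of marks. -/
def run (cls : ℕ → Cl) (k : ℕ) (c : Ct) : List (List ℕ) → ℕ → List ℕ → Option ℕ :=
  @Ct.rec (fun _ => List (List ℕ) → ℕ → List ℕ → Option ℕ)
    (fun b t bits S m gf =>
      cond (Nat.beq m (Nat.sub (Nat.pow 2 (Nat.mul 3 (Nat.pow 2 k))) 1))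
        (leafv (cls b) t bits S gf) none)
    (fun i j A B g _ _ ihl ihr S m gf =>
      (fun P Q =>
        (fun w =>
          cond (cond (Nat.blt i j) (cond (Nat.blt j (Nat.add k 3))
            (cond (Nat.beq (Nat.mul A (sm P)) 0) false (cond (Nat.beq (Nat.mul B (sm Q)) 0) false
              (chk A B g P Q w))) false) false)
            (avg (Nat.mul A (sm P)) (Nat.mul B (sm Q)) (ihl (setn w i S) m gf)
              (ihr (setn w j S) m gf)) none)
        (cmb A B g P Q))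
      (nth S i) (nth S j))
    (fun q F st _ ih S m gf =>
      (fun u e =>
        cond (cond (Nat.blt q 3) (cond (Nat.blt F (Nat.pow 2 k)) (Nat.beq (Nat.mod (Nat.div m e) 2) 0)
          false) false)
          (cond (Nat.beq st 1)
            (cond (allL (geb u) S) (ih S (Nat.add m e) (addf (wtf k F) u gf)) none)
            (cond (allL (leb u) S) (cond (allL (geb u) S) none (ih S (Nat.add m e) gf)) none))
          none)
      (uv k q F) (Nat.pow 2 (Nat.add (Nat.mul q (Nat.pow 2 k)) F)))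
    c

/-- comparison of a result with a bound -/
def le (o : Option ℕ) (r : ℕ) : Bool :=
  @Option.rec ℕ (fun _ => Bool) false (fun x => Nat.ble x r) o

end

end Pool.Agent.Work.MP_122e00_nt.Sharp.Cx
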