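import Pool.Agent.Work.MP_122e00_nt.Sharp.Stmts
import Pool.Agent.Work.MP_122e00_nt.Sharp.Cert.Eval

set_option autoImplicit false

/-!
# The certificate: statements for the soundness
-/

namespace Pool.Agent.Work.MP_122e00_nt.Sharp.Cx

open Finset MeasureTheory

open scoped ENNReal

open Gen

noncomputable section

/-! ### moments of linear functions on a simplex -/

/-- The affine function with the values `a 0, …, a n` at the vertices, barycentric coordinates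
`(y, 1 - ∑ y)`. -/
def lf (n : ℕ) (a : ℕ → ℝ) (y : Fin n → ℝ) : ℝ :=
  ∑ i : Fin n, y i * a i.val + (1 - ∑ i, y i) * a n

/-- The coefficient of `t ^ d s ^ e` in `∏_{v < N} 1 / (1 - t a_v - s g_v)`. -/
def h2 {A : Type} [CommSemiring A] (a g : ℕ → A) : ℕ → ℕ → ℕ → A
  | 0, d, e => if d = 0 ∧ e = 0 then 1 else 0
  | N + 1, 0, 0 => h2 a g N 0 0
  | N + 1, d + 1, 0 => h2 a g N (d + 1) 0 + a N * h2 a g (N + 1) d 0
  | N + 1, 0, e + 1 => h2 a g N 0 (e + 1) + g N * h2 a g (N + 1) 0 e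
  | N + 1, d + 1, e + 1 => h2 a g N (d + 1) (e + 1) + a N * h2 a g (N + 1) d (e + 1) +
      g N * h2 a g (N + 1) (d + 1) e
  termination_by N d e => (N, d + e)

/-- C1: moments of one affine function. -/
def claimC1 : Prop := ∀ (n D : ℕ) (a : ℕ → ℝ),
    ∫ y in Chamber.T (Fin n), lf n a y ^ D =
      (D.factorial : ℝ) / ((n + D).factorial : ℝ) * h2 a (fun _ => 0) (n + 1) D 0

/-- C2: mixed moments of two affine functions. -/
def claimC2 : Prop := ∀ (n d e : ℕ) (a g : ℕ → ℝ),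
    ∫ y in Chamber.T (Fin n), lf n a y ^ d * lf n g y ^ e =
      ((d.factorial : ℝ) * (e.factorial : ℝ)) / ((n + d + e).factorial : ℝ) * h2 a g (n + 1) d e

/-- C3: the tables. -/
def claimC3 : Prop := ∀ (Ls gs : List ℕ) (D e : ℕ), gs.length = Ls.length → e < 4 →
    nthN (last (tabs Ls gs (t0 D))) e = h2 (nthN Ls) (nthN gs) Ls.length D e

/-- C4: the bound for the tables. -/
def claimC4 : Prop := ∀ (a g : ℕ → ℕ) (A G N d e : ℕ), (∀ v, v ≤ N → a v ≤ A) →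
    (∀ v, v ≤ N → g v ≤ G) →
    h2 a g (N + 1) d e ≤ bin d e * bin (d + e) N * (A ^ d * G ^ e)

/-- C5: extraction of a slot of a product. -/
def claimC5 : Prop := ∀ (ι : Type) (s : Finset ι) (p c g : ι → ℕ) (mx bits : ℕ),
    (∀ i ∈ s, p i ≤ mx) → (∀ i ∈ s, ∀ j ∈ s, p i = p j → i = j) →
    (∑ i ∈ s, c i) * (∑ i ∈ s, g i) < 2 ^ bits →
    slot (∑ i ∈ s, g i * 2 ^ (bits * (mx - p i))) mx bits (∑ i ∈ s, c i * 2 ^ (bits * p i)) =
      ∑ i ∈ s, c i * g i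

/-- C6: several variables. -/
def claimC6 : Prop := ∀ (n K D e : ℕ) (a : ℕ → Fin K → ℕ) (γ : ℕ → ℕ),
    ∃ C : (Fin K → ℕ) → ℕ,
    (∀ W : Fin K → ℕ, h2 (fun v => ∑ j, W j * a v j) γ (n + 1) D e =
      ∑ α ∈ Finset.Nat.antidiagonalTuple K D, C α * ∏ j, W j ^ α j) ∧
    ∀ α ∈ Finset.Nat.antidiagonalTuple K D,
      (C α : ℝ) * ((∏ j, ((α j).factorial : ℝ)) * (e.factorial : ℝ)) =
        ((n + D + e).factorial : ℝ) * ∫ y in Chamber.T (Fin n),
          (∏ j, lf n (fun v => (a v j : ℝ)) y ^ α j) * lf n (fun v => (γ v : ℝ)) y ^ e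

/-! ### the reversed density -/

/-- The weight of an exponent vector; the last entry belongs to the exact part. -/
def gw (fx fz : List ℕ) (s K : ℕ) (β : Fin (K + 1) → ℕ) : ℕ :=
  if s = 0 ∧ β (Fin.last K) ≠ 0 then 0 else
    ∏ i : Fin K, nthN (if i.val + 1 = K then fz else fx) (β i.castSucc)

/-- The slot of an exponent vector. -/
def sl (ws : List ℕ) (wS K : ℕ) (β : Fin (K + 1) → ℕ) : ℕ :=
  ∑ i : Fin K, nthN ws i.val * β i.castSucc + wS * β (Fin.last K)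

/-- C7: the reversed density. -/
def claimC7 : Prop := ∀ (fx fz : List ℕ) (wS mx bits s : ℕ) (ws : List ℕ) (d p g : ℕ), ws ≠ [] →
    d < fx.length → d < fz.length →
    gx fx fz wS mx bits s ws d p g =
      ∑ β ∈ Finset.Nat.antidiagonalTuple (ws.length + 1) d,
        g * gw fx fz s ws.length β * 2 ^ (bits * (mx - (p + sl ws wS ws.length β)))

/-- C8: the packed linear form. -/
def claimC8 : Prop := ∀ (p ws us : List ℕ) (wS bits : ℕ), us.length = 3 →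
    p.length = ws.length + 3 →
    dot p (wl bits wS us ws) = ∑ j ∈ Finset.range ws.length, nthN p j * 2 ^ (bits * nthN ws j) +
      (∑ q ∈ Finset.range 3, nthN us q * nthN p (ws.length + q)) * 2 ^ (bits * wS)

/-! ### leaves -/

/-- The point with homogeneous coordinates `p`. -/
def pt (N : ℕ) (p : List ℕ) : Fin N → ℝ := fun i => (nthN p i.val : ℝ) / (sm p : ℝ)

/-- The vertices of a simplex. -/
def pts (n : ℕ) (S : List (List ℕ)) : Option (Fin n) → Fin (n + 1) → ℝ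
  | some i => pt (n + 1) (nth S i.val)
  | none => pt (n + 1) (nth S n)

/-- The variables of a class: the marks and the exact part. -/
def vr (k : ℕ) (c : Cl) (p : Fin (k + 3) → ℝ) (i : Fin (k + 1)) : ℝ :=
  if i.val < k then p ⟨i.val, by omega⟩
  else ∑ q : Fin 3, (nthN c.us q.val : ℝ) * p (Fin.natAdd k q)

/-- The density of a class. -/
def dpoly (k : ℕ) (c : Cl) (p : Fin (k + 3) → ℝ) : ℝ :=
  (c.cn : ℝ) / (c.cd : ℝ) * ∑ β ∈ Finset.Nat.antidiagonalTuple (k + 1) c.D,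
    (gw c.fx c.fz (sm c.us) k β : ℝ) * ∏ i, vr k c p i ^ β i / ((β i).factorial : ℝ)

/-- The linear form of the weight of the good placements. -/
def Gf {N : ℕ} (gf : List ℕ) (p : Fin N → ℝ) : ℝ := 4 / 9 * ∑ i, (nthN gf i.val : ℝ) * p i

/-- Valid class. -/
structure Clv (k : ℕ) (c : Cl) : Prop where
  k_eq : c.k = k
  k_pos : 1 ≤ k
  ws_len : c.ws.length = k
  us_len : c.us.length = 3
  us_le : ∀ q, nthN c.us q ≤ 1
  fx_len : c.D < c.fx.length
  fz_len : c.D < c.fz.length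
  cd_pos : 0 < c.cd
  sl_le : ∀ β ∈ Finset.Nat.antidiagonalTuple (k + 1) c.D, (sm c.us = 0 → β (Fin.last k) = 0) →
    sl c.ws c.wS k β ≤ c.mx
  sl_inj : ∀ β ∈ Finset.Nat.antidiagonalTuple (k + 1) c.D,
    ∀ β' ∈ Finset.Nat.antidiagonalTuple (k + 1) c.D, (sm c.us = 0 → β (Fin.last k) = 0) →
    (sm c.us = 0 → β' (Fin.last k) = 0) → sl c.ws c.wS k β = sl c.ws c.wS k β' → β = β'

/-- Valid simplex. -/
def Sv (k : ℕ) (S : List (List ℕ)) : Prop :=
  S.length = k + 3 ∧ ∀ p ∈ S, p.length = k + 3 ∧ 0 < sm p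

/-- The common multiple of the sums of the coordinates. -/
def dl (S : List (List ℕ)) : ℕ := lcms (mpL sm S)

/-- The values of the linear form, times the common multiple. -/
def gsl (S : List (List ℕ)) (gf : List ℕ) : List ℕ :=
  mpL (fun p => Nat.mul (Nat.div (dl S) (sm p)) (dot p gf)) S

/-- The last row of the table. -/
def rws (c : Cl) (bits : ℕ) (S : List (List ℕ)) (gf : List ℕ) : List ℕ :=
  last (tabs (mpL (fun p => Nat.mul (Nat.div (dl S) (sm p)) (dot p (wl bits c.wS c.us c.ws))) S)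
    (gsl S gf) (t0 c.D))

/-- E1: the integral of the density times a power of the linear form. -/
def claimE1 : Prop := ∀ (k : ℕ) (c : Cl) (bits : ℕ) (S : List (List ℕ)) (gf : List ℕ), Clv k c →
    Sv k S → gf.length = k + 3 → (∀ p ∈ S, dl S / sm p * sm p = dl S) →
    okb c bits (dl S) (mxs (gsl S gf)) = true → ∀ e, e < 4 →
    ∫ y in Chamber.T (Fin (k + 2)), dpoly k c (Chamber.bar (pts (k + 2) S) y) *
        lf (k + 2) (fun v => (nthN (gsl S gf) v : ℝ)) y ^ e =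
      (c.cn : ℝ) / (c.cd : ℝ) * ((e.factorial : ℝ) / ((k + 2 + c.D + e).factorial : ℝ)) *
        ((slot (gt c bits) c.mx bits (nthN (rws c bits S gf) e) : ℝ) / (dl S : ℝ) ^ c.D)

/-- E2: the cubic bound. -/
def claimE2 : Prop := ∀ (R N κ g0 g1 c x : ℝ), 0 < κ → 0 < g0 → g0 ≤ c → g0 ≤ x → x ≤ g1 →
    pg R N (κ * x) ≤ N ^ 2 / (κ * (g0 * g1 * c ^ 2)) *
      ((2 * c * g0 * g1 + c ^ 2 * (g0 + g1)) - (g0 * g1 + 2 * c * (g0 + g1) + c ^ 2) * x +
        (g0 + g1 + 2 * c) * x ^ 2 - x ^ 3) - 2 * N + κ * x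

/-- E3: the value of a leaf. -/
def claimE3 : Prop := ∀ (k : ℕ) (c : Cl) (t bits : ℕ) (S : List (List ℕ)) (gf : List ℕ) (r : ℕ),
    Clv k c → Sv k S → gf.length = k + 3 → leafv c t bits S gf = some r →
    Chamber.EV (pts (k + 2) S) (fun p => ENNReal.ofReal (dpoly k c p *
      pg (2187 / 4) (3 ^ k) (Gf gf p))) ≤ ENNReal.ofReal ((r : ℝ) / (Sc : ℝ))

/-! ### the weight of the good placements -/

/-- The linear form `∑_{i ∈ F} x_i + h_q`. -/
def lu (k q F : ℕ) (p : Fin (k + 3) → ℝ) : ℝ := ∑ i, (nthN (uv k q F) i.val : ℝ) * p i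

open Classical in
/-- G1: the sum over the placements. -/
def claimG1 : Prop := ∀ (k : ℕ) (p : Fin (k + 3) → ℝ), (∀ i, 0 ≤ p i) → ∑ i, p i = 1 →
    Pl (g3 0) (px p) (ph3 p) = 4 / 9 * ∑ q ∈ Finset.range 3, ∑ F ∈ Finset.range (2 ^ k),
      if 1 / 2 ≤ lu k q F p then (wtf k F : ℝ) * (7 - 6 * lu k q F p) else 0

open Classical in
/-- The invariant: on the interior of the simplex the decided linear forms (bits of `m`) contribute
`∑ gf_i p_i`. -/
def Inv (k : ℕ) (S : List (List ℕ)) (m : ℕ) (gf : List ℕ) : Prop :=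
  gf.length = k + 3 ∧ ∀ y : Fin (k + 2) → ℝ, (∀ i, 0 < y i) → ∑ i, y i < 1 →
    (∑ q ∈ Finset.range 3, ∑ F ∈ Finset.range (2 ^ k),
      if m / 2 ^ (q * 2 ^ k + F) % 2 = 1 ∧ 1 / 2 ≤ lu k q F (Chamber.bar (pts (k + 2) S) y) then
        (wtf k F : ℝ) * (7 - 6 * lu k q F (Chamber.bar (pts (k + 2) S) y)) else 0) =
      ∑ i, (nthN gf i.val : ℝ) * Chamber.bar (pts (k + 2) S) y i

/-- G2: the start. -/
def claimG2 : Prop := ∀ (k : ℕ) (S : List (List ℕ)), Inv k S 0 (List.replicate (k + 3) 0)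

/-- G3: one decision. -/
def claimG3 : Prop := ∀ (k : ℕ) (S : List (List ℕ)) (m : ℕ) (gf : List ℕ) (q F : ℕ), Sv k S →
    Inv k S m gf → q < 3 → F < 2 ^ k → m / 2 ^ (q * 2 ^ k + F) % 2 = 0 →
    (allL (geb (uv k q F)) S = true →
      Inv k S (m + 2 ^ (q * 2 ^ k + F)) (addf (wtf k F) (uv k q F) gf)) ∧
    (allL (leb (uv k q F)) S = true → allL (geb (uv k q F)) S = false →
      Inv k S (m + 2 ^ (q * 2 ^ k + F)) gf)

/-- G4: one cut. -/
def claimG4 : Prop := ∀ (k : ℕ) (S : List (List ℕ)) (i j A B g : ℕ), Sv k S → i < j → j < k + 3 →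
    A * sm (nth S i) ≠ 0 → B * sm (nth S j) ≠ 0 →
    chk A B g (nth S i) (nth S j) (cmb A B g (nth S i) (nth S j)) = true →
    Sv k (setn (cmb A B g (nth S i) (nth S j)) i S) ∧
    Sv k (setn (cmb A B g (nth S i) (nth S j)) j S) ∧
    (∀ m gf, Inv k S m gf → Inv k (setn (cmb A B g (nth S i) (nth S j)) i S) m gf ∧
      Inv k (setn (cmb A B g (nth S i) (nth S j)) j S) m gf) ∧
    ∀ G : (Fin (k + 2 + 1) → ℝ) → ℝ≥0∞, Measurable G → Chamber.EV (pts (k + 2) S) G =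
      ENNReal.ofReal ((A * sm (nth S i) : ℕ) / ((A * sm (nth S i) : ℕ) + (B * sm (nth S j) : ℕ) : ℝ)) *
        Chamber.EV (pts (k + 2) (setn (cmb A B g (nth S i) (nth S j)) i S)) G +
      ENNReal.ofReal ((B * sm (nth S j) : ℕ) / ((A * sm (nth S i) : ℕ) + (B * sm (nth S j) : ℕ) : ℝ)) *
        Chamber.EV (pts (k + 2) (setn (cmb A B g (nth S i) (nth S j)) j S)) G

/-- The bound for a simplex, for the density `Dn`. -/
def Bd (k : ℕ) (Dn : (Fin (k + 3) → ℝ) → ℝ) (S : List (List ℕ)) (r : ℕ) : Prop :=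
  Chamber.EV (pts (k + 2) S) (fun p => ENNReal.ofReal (Dn p *
    pg (2187 / 4) (3 ^ k) (Pl (g3 0) (px (k := k) p) (ph3 (k := k) p)))) ≤
    ENNReal.ofReal ((r : ℝ) / (Sc : ℝ))

/-- The classes dominate the density. -/
def Dom (k : ℕ) (Dn : (Fin (k + 3) → ℝ) → ℝ) (cls : ℕ → Cl) : Prop :=
  Measurable Dn ∧ ∀ b, Clv k (cls b) ∧ ∀ p : Fin (k + 3) → ℝ, (∀ i, 0 ≤ p i) → ∑ i, p i = 1 →
    0 ≤ Dn p ∧ Dn p ≤ dpoly k (cls b) p

/-- G5: soundness of the evaluation. -/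
def claimG5 : Prop := ∀ (k : ℕ) (Dn : (Fin (k + 3) → ℝ) → ℝ) (cls : ℕ → Cl), Dom k Dn cls →
    ∀ (c : Ct) (S : List (List ℕ)) (m : ℕ) (gf : List ℕ) (r : ℕ), Sv k S → Inv k S m gf →
    run cls k c S m gf = some r → Bd k Dn S r

/-! ### the densities -/

/-- K1: the symmetric weight as a polynomial. -/
def claimK1 : Prop := ∀ (k m : ℕ) (x : Fin k → ℝ), k ≤ m → Qs k m x = (m.factorial : ℝ) *
    ∑ α ∈ Finset.Nat.antidiagonalTuple k (m - k), ∏ i, x i ^ α i / ((α i + 1).factorial : ℝ)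

/-- The factor of the last mark. -/
def rh (b a : ℕ) : ℝ := (a.factorial : ℝ) *
  ∑ j ∈ Finset.range (a + 1), be b j / ((j.factorial : ℝ) * ((a - j + 1).factorial : ℝ))

/-- K2: the density with hidden marks as a polynomial. -/
def claimK2 : Prop := ∀ (k m b : ℕ) (p : Fin (k + 1 + 3) → ℝ), k + 1 ≤ m →
    Pb m b p = (m.factorial : ℝ) *
    ∑ β ∈ Finset.Nat.antidiagonalTuple (k + 1 + 1) (m - (k + 1)),
      (∏ i : Fin k, px p i.castSucc ^ β i.castSucc.castSucc /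
        ((β i.castSucc.castSucc + 1).factorial : ℝ)) *
      (rh b (β (Fin.last k).castSucc) * px p (Fin.last k) ^ β (Fin.last k).castSucc /
        ((β (Fin.last k).castSucc).factorial : ℝ)) *
      ((∑ q : Fin 3, if b ≤ q.val then ph3 p q else 0) ^ β (Fin.last (k + 1)) /
        ((β (Fin.last (k + 1))).factorial : ℝ))

/-- The base simplex. -/
def bs : ℕ → List (List ℕ)
  | 1 => [[1, 0, 0, 0], [0, 1, 0, 0], [0, 1, 1, 0], [0, 1, 1, 1]]
  | 2 => [[1, 0, 0, 0, 0], [1, 1, 0, 0, 0], [0, 0, 1, 0, 0], [0, 0, 1, 1, 0], [0, 0, 1, 1, 1]]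
  | 3 => [[1, 0, 0, 0, 0, 0], [1, 1, 0, 0, 0, 0], [1, 1, 1, 0, 0, 0], [0, 0, 0, 1, 0, 0],
      [0, 0, 0, 1, 1, 0], [0, 0, 0, 1, 1, 1]]
  | _ => [[1, 0, 0, 0, 0, 0, 0], [1, 1, 0, 0, 0, 0, 0], [1, 1, 1, 0, 0, 0, 0],
      [1, 1, 1, 1, 0, 0, 0], [0, 0, 0, 0, 1, 0, 0], [0, 0, 0, 0, 1, 1, 0],
      [0, 0, 0, 0, 1, 1, 1]]

/-- K3: the base simplex. -/
def claimK3 : Prop := ∀ k : ℕ, 1 ≤ k → k ≤ 4 → Sv k (bs k) ∧ pts (k + 2) (bs k) = V1 k

end

end Pool.Agent.Work.MP_122e00_nt.Sharp.Cx
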