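import Pool.Agent.Work.MP_122e00_nt.Bd.B57

set_option autoImplicit false

/-!
# The certificate: item G4
-/

namespace Pool.Agent.Work.MP_122e00_nt.Sharp.Cx

open Finset MeasureTheory

open scoped ENNReal

namespace G4

open GB G3

theorem nth_nil (i : ℕ) : nth [] i = [] := by
  induction i with
  | zero => rfl
  | succ i ih => exact ih

theorem nth_setn (w : List ℕ) : ∀ (i j : ℕ) (l : List (List ℕ)),
    nth (setn w i l) j = if j = i then w else nth l j := by
  intro i
  induction i with
  | zero =>
    intro j l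
    rcases j with _ | j
    · rfl
    · rw [if_neg (by omega)]
      rfl
  | succ i ih =>
    intro j l
    rcases j with _ | j
    · rw [if_neg (by omega)]
      rfl
    · have e : nth (setn w (i + 1) l) (j + 1) = nth (setn w i (tlL l)) j := rfl
      rw [e, ih]
      by_cases h : j = i
      · rw [if_pos h, if_pos (by omega)]
      · rw [if_neg h, if_neg (by omega)]
        rfl

theorem length_setn (w : List ℕ) : ∀ (i : ℕ) (l : List (List ℕ)), i < l.length →
    (setn w i l).length = l.length := by
  intro i
  induction i with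
  | zero =>
    intro l hl
    rcases l with _ | ⟨a, l⟩
    · simp at hl
    · rfl
  | succ i ih =>
    intro l hl
    rcases l with _ | ⟨a, l⟩
    · simp at hl
    · have e : setn w (i + 1) (a :: l) = a :: setn w i l := rfl
      rw [e, List.length_cons, List.length_cons, ih l (by simpa using hl)]

theorem mem_setn (w : List ℕ) : ∀ (i : ℕ) (l : List (List ℕ)), i < l.length →
    ∀ p ∈ setn w i l, p = w ∨ p ∈ l := by
  intro i
  induction i with
  | zero =>
    intro l hl p hp
    rcases l with _ | ⟨a, l⟩
    · simp at hl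
    · have e : setn w 0 (a :: l) = w :: l := rfl
      rw [e] at hp
      rcases List.mem_cons.1 hp with h | h
      · exact Or.inl h
      · exact Or.inr (List.mem_cons_of_mem _ h)
  | succ i ih =>
    intro l hl p hp
    rcases l with _ | ⟨a, l⟩
    · simp at hl
    · have e : setn w (i + 1) (a :: l) = a :: setn w i l := rfl
      rw [e] at hp
      rcases List.mem_cons.1 hp with h | h
      · exact Or.inr (h ▸ List.mem_cons_self)
      · rcases ih l (by simpa using hl) p h with h | h
        · exact Or.inl h
        · exact Or.inr (List.mem_cons_of_mem _ h)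

theorem cmb_length (A B g : ℕ) : ∀ P Q : List ℕ, (cmb A B g P Q).length = P.length := by
  intro P
  induction P with
  | nil => intro Q; rfl
  | cons p P ih =>
    intro Q
    have e : cmb A B g (p :: P) Q = ((A * p + B * hd Q) / g) :: cmb A B g P (tl Q) := rfl
    rw [e, List.length_cons, List.length_cons, ih]

theorem chk_nth (A B g : ℕ) : ∀ (P Q w : List ℕ), chk A B g P Q w = true → ∀ i, i < P.length →
    g * nthN w i = A * nthN P i + B * nthN Q i := by
  intro P
  induction P with
  | nil => intro Q w _ i hi; exact absurd hi (Nat.not_lt_zero _)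
  | cons p P ih =>
    intro Q w h i hi
    have e : chk A B g (p :: P) Q w =
      cond (Nat.beq (g * hd w) (A * p + B * hd Q)) (chk A B g P (tl Q) (tl w)) false := rfl
    rw [e] at h
    cases hb : Nat.beq (g * hd w) (A * p + B * hd Q) with
    | false => rw [hb] at h; exact absurd h (by simp)
    | true =>
      rw [hb] at h
      rcases i with _ | i
      · exact Nat.eq_of_beq_eq_true hb
      · exact ih (tl Q) (tl w) h i (by simpa using hi)

/-- The position of a vertex. -/
def ix (k i : ℕ) : Option (Fin (k + 2)) := if h : i < k + 2 then some ⟨i, h⟩ else none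

theorem pts_ix (k : ℕ) (S : List (List ℕ)) (i : ℕ) (hi : i < k + 3) :
    pts (k + 2) S (ix k i) = pt (k + 3) (nth S i) := by
  unfold ix
  by_cases h : i < k + 2
  · rw [dif_pos h]
    rfl
  · rw [dif_neg h]
    have : i = k + 2 := by omega
    subst this
    rfl

theorem ix_inj {k i j : ℕ} (hi : i < k + 3) (hj : j < k + 3) (h : ix k i = ix k j) : i = j := by
  unfold ix at h
  by_cases h1 : i < k + 2
  · rw [dif_pos h1] at h
    by_cases h2 : j < k + 2
    · rw [dif_pos h2] at h
      simpa using h
    · rw [dif_neg h2] at h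
      exact absurd h (by simp)
  · rw [dif_neg h1] at h
    by_cases h2 : j < k + 2
    · rw [dif_pos h2] at h
      exact absurd h (by simp)
    · omega

theorem exists_ix (k : ℕ) (o : Option (Fin (k + 2))) : ∃ i, i < k + 3 ∧ ix k i = o := by
  rcases o with _ | i
  · exact ⟨k + 2, by omega, by unfold ix; rw [dif_neg (by omega)]⟩
  · exact ⟨i.val, by have := i.2; omega, by unfold ix; rw [dif_pos i.2]⟩

theorem pts_setn (k : ℕ) (S : List (List ℕ)) (i : ℕ) (hi : i < k + 3) (w : List ℕ) :
    pts (k + 2) (setn w i S) = Function.update (pts (k + 2) S) (ix k i) (pt (k + 3) w) := by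
  funext o
  obtain ⟨j, hj, rfl⟩ := exists_ix k o
  rw [pts_ix _ _ _ hj, nth_setn]
  by_cases h : j = i
  · subst h
    rw [if_pos rfl, Function.update_self]
  · rw [if_neg h, Function.update_of_ne (fun h2 => h (ix_inj hj hi h2)), pts_ix _ _ _ hj]

/-- Any positive weights with sum one are barycentric weights. -/
theorem exists_wt {n : ℕ} (w : Option (Fin n) → ℝ) (h0 : ∀ o, 0 < w o) (h1 : ∑ o, w o = 1) :
    ∃ y : Fin n → ℝ, (∀ i, 0 < y i) ∧ ∑ i, y i < 1 ∧ wt y = w := by
  rw [Fintype.sum_option] at h1
  refine ⟨fun i => w (some i), fun i => h0 _, by have := h0 none; linarith, ?_⟩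
  funext o
  rcases o with _ | i
  · simp only [wt]
    linarith
  · rfl

/-- A point of a sub-simplex is a point of the simplex. -/
theorem sub_simplex {n N : ℕ} (V : Option (Fin n) → Fin N → ℝ) (a b : Option (Fin n))
    (hab : a ≠ b) (μ : ℝ) (h0 : 0 < μ) (h1 : μ < 1) (y : Fin n → ℝ) (hy : ∀ i, 0 < y i)
    (hy1 : ∑ i, y i < 1) : ∃ y' : Fin n → ℝ, (∀ i, 0 < y' i) ∧ ∑ i, y' i < 1 ∧
      Chamber.bar (Function.update V a (μ • V a + (1 - μ) • V b)) y = Chamber.bar V y' := by
  set w : Option (Fin n) → ℝ := fun o => wt y o +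
    ((if o = b then (1 - μ) * wt y a else 0) - if o = a then (1 - μ) * wt y a else 0) with hw
  have hpos := wt_pos y hy hy1
  have hsum : ∑ o, w o = 1 := by
    rw [hw, Finset.sum_add_distrib, Finset.sum_sub_distrib, wt_sum]
    simp
  have hw0 : ∀ o, 0 < w o := by
    intro o
    simp only [hw]
    by_cases ha : o = a
    · subst ha
      rw [if_neg hab, if_pos rfl]
      have := mul_pos h0 (hpos o)
      nlinarith
    · rw [if_neg ha]
      by_cases hb : o = b
      · rw [if_pos hb]
        have := mul_pos (sub_pos.2 h1) (hpos a)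
        have := hpos o
        linarith
      · rw [if_neg hb]
        have := hpos o
        linarith
  obtain ⟨y', hy', hy1', e⟩ := exists_wt w hw0 hsum
  refine ⟨y', hy', hy1', ?_⟩
  funext q
  rw [bar_wt, bar_wt, e, hw]
  have e1 : ∀ o, wt y o * Function.update V a (μ • V a + (1 - μ) • V b) o q =
      wt y o * V o q + if o = a then (1 - μ) * wt y a * (V b q - V a q) else 0 := by
    intro o
    by_cases ho : o = a
    · subst ho
      rw [Function.update_self, if_pos rfl]
      simp only [Pi.add_apply, Pi.smul_apply, smul_eq_mul]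
      ring
    · rw [Function.update_of_ne ho, if_neg ho, add_zero]
  have e2 : ∀ o, (wt y o + ((if o = b then (1 - μ) * wt y a else 0) -
      if o = a then (1 - μ) * wt y a else 0)) * V o q = wt y o * V o q +
      ((if o = b then (1 - μ) * wt y a * V b q else 0) -
        if o = a then (1 - μ) * wt y a * V a q else 0) := by
    intro o
    by_cases ha : o = a
    · subst ha
      simp [hab]
      ring
    · by_cases hb : o = b
      · subst hb
        simp [ha]
        ring
      · simp [ha, hb]
  rw [Finset.sum_congr rfl fun o _ => e1 o, Finset.sum_congr rfl fun o _ => e2 o]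
  simp only [Finset.sum_add_distrib, Finset.sum_sub_distrib, Finset.sum_ite_eq',
    Finset.mem_univ, if_true]
  ring

theorem inv_update {k : ℕ} {S S' : List (List ℕ)} {a b : Option (Fin (k + 2))} (hab : a ≠ b)
    {μ : ℝ} (h0 : 0 < μ) (h1 : μ < 1)
    (h : pts (k + 2) S' = Function.update (pts (k + 2) S) a (μ • pts (k + 2) S a +
      (1 - μ) • pts (k + 2) S b)) (m : ℕ) (gf : List ℕ) (hI : Inv k S m gf) : Inv k S' m gf := by
  refine ⟨hI.1, fun y hy hy1 => ?_⟩
  obtain ⟨y', hy', hy1', e⟩ := sub_simplex (pts (k + 2) S) a b hab μ h0 h1 y hy hy1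
  rw [h, e]
  exact hI.2 y' hy' hy1'

end G4

open G4 G3 GB in
theorem prfG4 : claimG4 := by
  intro k S i j A B g hS hij hj hA hB hchk
  set P := nth S i with hP
  set Q := nth S j with hQ
  set w := cmb A B g P Q with hw
  have hlS : S.length = k + 3 := hS.1
  have hi : i < k + 3 := by omega
  have hPS : P ∈ S := nth_mem S i (by omega)
  have hQS : Q ∈ S := nth_mem S j (by omega)
  obtain ⟨hPl, hP0⟩ := hS.2 P hPS
  obtain ⟨hQl, hQ0⟩ := hS.2 Q hQS
  have hwl : w.length = k + 3 := by rw [hw, cmb_length, hPl]
  have hn := chk_nth A B g P Q w hchk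
  have hsum : A * sm P + B * sm Q = g * sm w := by
    rw [sm_eq (k + 3) P hPl, sm_eq (k + 3) Q hQl, sm_eq (k + 3) w hwl, Finset.mul_sum,
      Finset.mul_sum, Finset.mul_sum, ← Finset.sum_add_distrib]
    exact Finset.sum_congr rfl fun i _ => (hn i.val (by rw [hPl]; exact i.2)).symm
  have hApos : 0 < A * sm P := Nat.pos_of_ne_zero hA
  have hBpos : 0 < B * sm Q := Nat.pos_of_ne_zero hB
  have hg : 0 < g := by
    rcases Nat.eq_zero_or_pos g with h | h
    · rw [h] at hsum; omega
    · exact h
  have hw0 : 0 < sm w := by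
    rcases Nat.eq_zero_or_pos (sm w) with h | h
    · rw [h] at hsum; omega
    · exact h
  have hα0 : (0 : ℝ) < ((A * sm P : ℕ) : ℝ) := by exact_mod_cast hApos
  have hβ0 : (0 : ℝ) < ((B * sm Q : ℕ) : ℝ) := by exact_mod_cast hBpos
  set α : ℝ := ((A * sm P : ℕ) : ℝ) with hα
  set β : ℝ := ((B * sm Q : ℕ) : ℝ) with hβ
  have hμ0 : 0 < α / (α + β) := by positivity
  have hμ1 : α / (α + β) < 1 := by
    rw [div_lt_one (by positivity)]
    linarith
  have e1 : 1 - α / (α + β) = β / (α + β) := by
    field_simp
    ring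
  have hpt : pt (k + 3) w = (α / (α + β)) • pt (k + 3) P + (1 - α / (α + β)) • pt (k + 3) Q := by
    funext q
    simp only [Pi.add_apply, Pi.smul_apply, smul_eq_mul, e1]
    unfold pt
    have h1 : (g : ℝ) * nthN w q.val = A * nthN P q.val + B * nthN Q q.val := by
      exact_mod_cast hn q.val (by rw [hPl]; exact q.2)
    have h2 : α + β = g * sm w := by
      rw [hα, hβ]
      exact_mod_cast hsum
    have hP0' : (0 : ℝ) < sm P := by exact_mod_cast hP0
    have hQ0' : (0 : ℝ) < sm Q := by exact_mod_cast hQ0
    have hg' : (0 : ℝ) < g := by exact_mod_cast hg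
    have hw' : (0 : ℝ) < sm w := by exact_mod_cast hw0
    have h3 : α / (α + β) * ((nthN P q.val : ℝ) / (sm P : ℝ)) +
        β / (α + β) * ((nthN Q q.val : ℝ) / (sm Q : ℝ)) =
        (A * nthN P q.val + B * nthN Q q.val) / (α + β) := by
      rw [hα, hβ]
      push_cast
      have hne : (A : ℝ) * sm P + B * sm Q ≠ 0 := by
        have : (A : ℝ) * sm P + B * sm Q = α + β := by rw [hα, hβ]; push_cast; ring
        rw [this]
        positivity
      field_simp
    rw [h3, ← h1, h2]
    field_simp
  have hne : ix k i ≠ ix k j := fun h => by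
    have := ix_inj hi hj h
    omega
  have sv : ∀ t, t < k + 3 → Sv k (setn w t S) := by
    intro t ht
    refine ⟨by rw [length_setn w t S (by omega), hlS], fun p hp => ?_⟩
    rcases mem_setn w t S (by omega) p hp with h | h
    · rw [h]
      exact ⟨hwl, hw0⟩
    · exact hS.2 p h
  have u1 : pts (k + 2) (setn w i S) = Function.update (pts (k + 2) S) (ix k i)
      ((α / (α + β)) • pts (k + 2) S (ix k i) + (1 - α / (α + β)) • pts (k + 2) S (ix k j)) := by
    rw [pts_setn k S i hi w, pts_ix k S i hi, pts_ix k S j hj, hpt]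
  have u2 : pts (k + 2) (setn w j S) = Function.update (pts (k + 2) S) (ix k j)
      ((α / (α + β)) • pts (k + 2) S (ix k i) + (1 - α / (α + β)) • pts (k + 2) S (ix k j)) := by
    rw [pts_setn k S j hj w, pts_ix k S i hi, pts_ix k S j hj, hpt]
  have u2' : pts (k + 2) (setn w j S) = Function.update (pts (k + 2) S) (ix k j)
      ((1 - α / (α + β)) • pts (k + 2) S (ix k j) +
        (1 - (1 - α / (α + β))) • pts (k + 2) S (ix k i)) := by
    rw [u2, sub_sub_cancel]
    congr 1
    exact add_comm _ _
  refine ⟨sv i hi, sv j hj, fun m gf hI => ⟨inv_update hne hμ0 hμ1 u1 m gf hI,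
    inv_update hne.symm (by linarith) (by linarith) u2' m gf hI⟩, fun G hG => ?_⟩
  have hb := Chamber.EV_bisect (pts (k + 2) S) G hG (ix k i) (ix k j) hne (α / (α + β)) hμ0.le
    hμ1.le
  rw [← u1, ← u2, e1] at hb
  exact hb

end Pool.Agent.Work.MP_122e00_nt.Sharp.Cx
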