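import Pool.Agent.Work.MP_122e00_nt.Sharp.Cert.Stmts

set_option autoImplicit false

/-!
# C1: moments of one affine function on a simplex (helper26)
-/

namespace Pool.Agent.Work.MP_122e00_nt.Sharp.Cx

open Finset MeasureTheory

noncomputable section

namespace IC1

/-- The complete homogeneous polynomial of `a 0, …, a (N - 1)`. -/
def H (a : ℕ → ℝ) (N D : ℕ) : ℝ := h2 a (fun _ => 0) N D 0

theorem H_zero (a : ℕ → ℝ) (D : ℕ) : H a 0 D = if D = 0 then 1 else 0 := by
  simp [H, h2]

theorem H_succ_zero (a : ℕ → ℝ) (N : ℕ) : H a (N + 1) 0 = H a N 0 := by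
  simp [H, h2]

theorem H_succ_succ (a : ℕ → ℝ) (N D : ℕ) :
    H a (N + 1) (D + 1) = H a N (D + 1) + a N * H a (N + 1) D := by
  simp [H, h2]

theorem H_N_zero (a : ℕ → ℝ) (N : ℕ) : H a N 0 = 1 := by
  induction N with
  | zero => simp [H_zero]
  | succ N ih => rw [H_succ_zero, ih]

/-- Peeling off the first variable. -/
theorem H_peel (a : ℕ → ℝ) (N D : ℕ) :
    H a (N + 1) (D + 1) = H (fun i => a (i + 1)) N (D + 1) + a 0 * H a (N + 1) D := by
  induction N generalizing D with
  | zero => rw [H_succ_succ, H_zero, H_zero]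
  | succ N ihN =>
    induction D with
    | zero =>
      rw [H_succ_succ, ihN, H_succ_succ (fun i => a (i + 1))]
      simp only [H_N_zero]
      ring
    | succ D ihD =>
      have e1 := H_succ_succ a (N + 1) (D + 1)
      have e2 := ihN (D + 1)
      have e3 : H (fun i => a (i + 1)) (N + 1) (D + 1 + 1) = H (fun i => a (i + 1)) N (D + 1 + 1) +
          a (N + 1) * H (fun i => a (i + 1)) (N + 1) (D + 1) :=
        H_succ_succ (fun i => a (i + 1)) N (D + 1)
      have e4 := H_succ_succ a (N + 1) D
      rw [e1, e2, e3]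
      linear_combination (a (N + 1)) * ihD - (a 0) * e4

theorem H_sum (a : ℕ → ℝ) (N D : ℕ) :
    H a (N + 1) D = ∑ j ∈ range (D + 1), a 0 ^ (D - j) * H (fun i => a (i + 1)) N j := by
  induction D with
  | zero => simp [H_N_zero]
  | succ D ih =>
    rw [H_peel, ih, Finset.sum_range_succ _ (D + 1), Finset.mul_sum, Nat.sub_self, pow_zero, one_mul,
      add_comm]
    congr 1
    refine Finset.sum_congr rfl fun j hj => ?_
    have hj' : j ≤ D := Nat.lt_succ_iff.1 (Finset.mem_range.1 hj)
    rw [Nat.succ_sub hj', pow_succ]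
    ring

/-- The beta integral. -/
theorem beta (p q : ℕ) (c : ℝ) : ∫ t in (0 : ℝ)..c, t ^ p * (c - t) ^ q =
    c ^ (p + q + 1) * ((p.factorial : ℝ) * (q.factorial : ℝ) / ((p + q + 1).factorial : ℝ)) := by
  induction p generalizing q with
  | zero =>
    have h1 : ∀ t : ℝ, t ^ 0 * (c - t) ^ q = (c - t) ^ q := fun t => by ring
    simp_rw [h1]
    rw [intervalIntegral.integral_comp_sub_left (fun x => x ^ q) c, integral_pow]
    have h2 : ((0 + q + 1).factorial : ℝ) = (q + 1) * (q.factorial : ℝ) := by
      rw [zero_add, Nat.factorial_succ]; push_cast; ring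
    have h3 : (q.factorial : ℝ) ≠ 0 := Nat.cast_ne_zero.2 (Nat.factorial_ne_zero _)
    have h4 : (q : ℝ) + 1 ≠ 0 := by positivity
    rw [h2]
    simp only [sub_self, sub_zero, Nat.factorial_zero, Nat.cast_one, zero_add]
    rw [zero_pow (by omega)]
    field_simp
    ring
  | succ p ih =>
    have hd : ∀ t ∈ Set.uIcc (0 : ℝ) c, HasDerivAt (fun t : ℝ => t ^ (p + 1) * (c - t) ^ (q + 1))
        (((p : ℝ) + 1) * (t ^ p * (c - t) ^ (q + 1)) -
          ((q : ℝ) + 1) * (t ^ (p + 1) * (c - t) ^ q)) t := by
      intro t _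
      have h0 : HasDerivAt (fun t : ℝ => (c - t) ^ (q + 1)) (((q + 1 : ℕ) : ℝ) * (c - t) ^ q * -1)
          t := ((hasDerivAt_id t).const_sub c).pow (q + 1)
      have h1 : HasDerivAt (fun t : ℝ => t ^ (p + 1) * (c - t) ^ (q + 1))
          (((p + 1 : ℕ) : ℝ) * t ^ p * (c - t) ^ (q + 1) +
            t ^ (p + 1) * (((q + 1 : ℕ) : ℝ) * (c - t) ^ q * -1)) t :=
        (hasDerivAt_pow (p + 1) t).mul h0
      have h2 : ((p + 1 : ℕ) : ℝ) * t ^ p * (c - t) ^ (q + 1) +
            t ^ (p + 1) * (((q + 1 : ℕ) : ℝ) * (c - t) ^ q * -1) =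
          ((p : ℝ) + 1) * (t ^ p * (c - t) ^ (q + 1)) -
          ((q : ℝ) + 1) * (t ^ (p + 1) * (c - t) ^ q) := by
        push_cast
        ring
      rwa [h2] at h1
    have hi := intervalIntegral.integral_eq_sub_of_hasDerivAt hd
      (Continuous.intervalIntegrable (by fun_prop) _ _)
    rw [intervalIntegral.integral_sub (Continuous.intervalIntegrable (by fun_prop) _ _)
      (Continuous.intervalIntegrable (by fun_prop) _ _), intervalIntegral.integral_const_mul,
      intervalIntegral.integral_const_mul, ih (q + 1)] at hi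
    simp only [sub_self, zero_pow (Nat.succ_ne_zero _), mul_zero, zero_mul] at hi
    have h4 : (q : ℝ) + 1 ≠ 0 := by positivity
    have e1 : p + (q + 1) + 1 = p + 1 + q + 1 := by ring
    rw [e1, Nat.factorial_succ q] at hi
    rw [Nat.factorial_succ p]
    push_cast at hi ⊢
    have h5 := sub_eq_zero.1 hi
    apply mul_left_cancel₀ h4
    rw [← h5]
    ring

/-- The scaled simplex. -/
def Tc (n : ℕ) (c : ℝ) : Set (Fin n → ℝ) := {y | (∀ i, 0 ≤ y i) ∧ ∑ i, y i ≤ c}

theorem meas_Tc (n : ℕ) (c : ℝ) : MeasurableSet (Tc n c) := by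
  have h1 : MeasurableSet {y : Fin n → ℝ | ∀ i, 0 ≤ y i} := by
    rw [show {y : Fin n → ℝ | ∀ i, 0 ≤ y i} = ⋂ i, {y | 0 ≤ y i} by ext; simp]
    exact MeasurableSet.iInter fun i => measurableSet_le measurable_const (measurable_pi_apply i)
  have h2 : MeasurableSet {y : Fin n → ℝ | ∑ i, y i ≤ c} := by
    refine measurableSet_le ?_ measurable_const
    exact Finset.measurable_sum _ fun i _ => measurable_pi_apply i
  exact h1.inter h2

theorem Tc_sub (n : ℕ) (c : ℝ) : Tc n c ⊆ Set.Icc 0 (fun _ => c) := by
  intro y hy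
  refine ⟨fun i => hy.1 i, fun i => ?_⟩
  exact (Finset.single_le_sum (fun j _ => hy.1 j) (Finset.mem_univ i)).trans hy.2

theorem intg (n : ℕ) (c : ℝ) (f : (Fin n → ℝ) → ℝ) (hf : Continuous f) :
    IntegrableOn f (Tc n c) :=
  (hf.integrableOn_Icc).mono_set (Tc_sub n c)

/-- Split off the first variable. -/
theorem peel {l : ℕ} (F : (Fin (l + 1) → ℝ) → ℝ) (hF : Integrable F) :
    ∫ x, F x = ∫ t : ℝ, ∫ y : Fin l → ℝ, F (Fin.cons t y) := by
  have hmp := (volume_preserving_piFinSuccAbove (fun _ : Fin (l + 1) => ℝ) 0).symm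
  have e : ∀ p : ℝ × (Fin l → ℝ),
      (MeasurableEquiv.piFinSuccAbove (fun _ : Fin (l + 1) => ℝ) 0).symm p =
        (Fin.cons p.1 p.2 : Fin (l + 1) → ℝ) := by
    intro p
    funext m
    refine Fin.cases ?_ (fun i => ?_) m
    · simp [MeasurableEquiv.piFinSuccAbove]
    · simp [MeasurableEquiv.piFinSuccAbove]
  have h1 : ∫ x, F x = ∫ p : ℝ × (Fin l → ℝ), F (Fin.cons p.1 p.2) := by
    rw [← hmp.integral_comp (MeasurableEquiv.measurableEmbedding _)]
    refine integral_congr_ae (Filter.Eventually.of_forall fun p => ?_)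
    simp only [e]
  have hi : Integrable (fun p : ℝ × (Fin l → ℝ) => F (Fin.cons p.1 p.2)) := by
    have h2 := (hmp.integrable_comp_emb (MeasurableEquiv.measurableEmbedding _)).2 hF
    refine h2.congr (Filter.Eventually.of_forall fun p => ?_)
    simp only [Function.comp, e]
  rw [h1, Measure.volume_eq_prod, integral_prod _ hi]

/-- The affine function on the scaled simplex. -/
def lc (n : ℕ) (c : ℝ) (a : ℕ → ℝ) (y : Fin n → ℝ) : ℝ :=
  ∑ i : Fin n, y i * a i.val + (c - ∑ i, y i) * a n

theorem cont_lc (n : ℕ) (c : ℝ) (a : ℕ → ℝ) : Continuous (lc n c a) := by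
  unfold lc
  fun_prop

theorem lc_cons (n : ℕ) (c t : ℝ) (a : ℕ → ℝ) (y : Fin n → ℝ) :
    lc (n + 1) c a (Fin.cons t y) = lc n (c - t) (fun i => a (i + 1)) y + t * a 0 := by
  simp only [lc, Fin.sum_univ_succ, Fin.cons_zero, Fin.cons_succ, Fin.val_zero, Fin.val_succ]
  ring

theorem main (n D : ℕ) (c : ℝ) (hc : 0 ≤ c) (a : ℕ → ℝ) :
    ∫ y in Tc n c, lc n c a y ^ D =
      c ^ (n + D) * ((D.factorial : ℝ) / ((n + D).factorial : ℝ) * H a (n + 1) D) := by
  induction n generalizing D c a with
  | zero =>
    have h1 : Tc 0 c = Set.univ := by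
      ext y
      simp [Tc, hc]
    have h2 : H a 1 D = a 0 ^ D := by
      rw [H_sum, Finset.sum_eq_single 0]
      · simp [H_zero]
      · intro j _ hj
        simp [H_zero, hj]
      · intro h
        simp at h
    have h3 : (D.factorial : ℝ) ≠ 0 := Nat.cast_ne_zero.2 (Nat.factorial_ne_zero _)
    rw [h1, Measure.restrict_univ, zero_add, zero_add, h2, div_self h3, one_mul]
    have h4 : ∀ y : Fin 0 → ℝ, lc 0 c a y ^ D = c ^ D * a 0 ^ D := by
      intro y
      simp [lc, mul_pow]
    simp_rw [h4]
    rw [integral_const]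
    have h5 : (volume : Measure (Fin 0 → ℝ)).real Set.univ = 1 := by
      rw [measureReal_def, volume_pi, Measure.pi_of_empty]
      simp
    rw [h5, one_smul]
  | succ n ih =>
    rw [← integral_indicator (meas_Tc _ _), peel]
    · have e1 : ∀ t : ℝ, (∫ y : Fin n → ℝ, (Tc (n + 1) c).indicator (fun y => lc (n + 1) c a y ^ D)
          (Fin.cons t y)) = (Set.Icc 0 c).indicator (fun t => ∑ j ∈ range (D + 1),
            (t ^ (D - j) * (c - t) ^ (n + j)) * ((a 0 ^ (D - j) * (D.choose j : ℝ)) *
              ((j.factorial : ℝ) / ((n + j).factorial : ℝ) *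
                H (fun i => a (i + 1)) (n + 1) j))) t := by
        intro t
        by_cases ht : t ∈ Set.Icc 0 c
        · rw [Set.indicator_of_mem ht]
          have e2 : ∀ y : Fin n → ℝ, (Tc (n + 1) c).indicator (fun y => lc (n + 1) c a y ^ D)
              (Fin.cons t y) = (Tc n (c - t)).indicator (fun y => ∑ j ∈ range (D + 1),
                lc n (c - t) (fun i => a (i + 1)) y ^ j * (t * a 0) ^ (D - j) *
                  (D.choose j : ℝ)) y := by
            intro y
            have e3 : (Fin.cons t y : Fin (n + 1) → ℝ) ∈ Tc (n + 1) c ↔ y ∈ Tc n (c - t) := by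
              simp only [Tc, Set.mem_ofPred_eq, Fin.sum_univ_succ, Fin.cons_zero, Fin.cons_succ,
                Fin.forall_fin_succ]
              constructor
              · rintro ⟨⟨h1, h2⟩, h3⟩
                exact ⟨h2, by linarith⟩
              · rintro ⟨h2, h3⟩
                exact ⟨⟨ht.1, h2⟩, by linarith⟩
            by_cases hy : y ∈ Tc n (c - t)
            · rw [Set.indicator_of_mem (e3.2 hy), Set.indicator_of_mem hy, lc_cons, add_pow]
            · rw [Set.indicator_of_notMem (fun h => hy (e3.1 h)), Set.indicator_of_notMem hy]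
          simp_rw [e2]
          rw [integral_indicator (meas_Tc _ _), integral_finsetSum]
          · refine Finset.sum_congr rfl fun j _ => ?_
            rw [integral_mul_const, integral_mul_const, ih j (c - t) (by linarith [ht.2]), mul_pow]
            ring
          · intro j _
            refine intg n (c - t) _ ?_
            have := cont_lc n (c - t) (fun i => a (i + 1))
            fun_prop
        · rw [Set.indicator_of_notMem ht]
          have e2 : ∀ y : Fin n → ℝ, (Tc (n + 1) c).indicator (fun y => lc (n + 1) c a y ^ D)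
              (Fin.cons t y) = 0 := by
            intro y
            refine Set.indicator_of_notMem (fun h => ht ?_) _
            have h1 := h.1 0
            have h2 := (Finset.single_le_sum (fun j _ => h.1 j) (Finset.mem_univ 0)).trans h.2
            simp only [Fin.cons_zero] at h1 h2
            exact ⟨h1, h2⟩
          simp_rw [e2]
          exact integral_zero _ _
      simp_rw [e1]
      rw [integral_indicator measurableSet_Icc, integral_Icc_eq_integral_Ioc,
        ← intervalIntegral.integral_of_le hc, intervalIntegral.integral_finsetSum]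
      · simp_rw [intervalIntegral.integral_mul_const, beta]
        rw [H_sum, Finset.mul_sum, Finset.mul_sum]
        refine Finset.sum_congr rfl fun j hj => ?_
        have hj' : j ≤ D := Nat.lt_succ_iff.1 (Finset.mem_range.1 hj)
        have h1 : D - j + (n + j) + 1 = n + 1 + D := by omega
        have hch : (D.choose j : ℝ) * (j.factorial : ℝ) * ((D - j).factorial : ℝ) =
            (D.factorial : ℝ) := by
          exact_mod_cast Nat.choose_mul_factorial_mul_factorial hj'
        have h3 : ((n + j).factorial : ℝ) ≠ 0 := Nat.cast_ne_zero.2 (Nat.factorial_ne_zero _)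
        have h4 : ((n + 1 + D).factorial : ℝ) ≠ 0 := Nat.cast_ne_zero.2 (Nat.factorial_ne_zero _)
        rw [h1, ← hch]
        field_simp
      · intro j _
        exact Continuous.intervalIntegrable (by fun_prop) _ _
    · rw [integrable_indicator_iff (meas_Tc _ _)]
      exact intg _ _ _ ((cont_lc _ _ _).pow D)

end IC1

theorem prfC1 : claimC1 := by
  intro n D a
  have h := IC1.main n D 1 zero_le_one a
  rw [one_pow, one_mul] at h
  exact h

end

end Pool.Agent.Work.MP_122e00_nt.Sharp.Cx
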