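import Pool.Agent.Work.MP_122e00_nt.Bd.B61
import Pool.Agent.Work.MP_122e00_nt.Bd.B36

set_option autoImplicit false

/-!
# The certificate: the bound
-/

namespace Pool.Agent.Work.MP_122e00_nt.Sharp.Cx

open Finset MeasureTheory

open scoped ENNReal

open Gen

noncomputable section

theorem bd1 : Bd 1 Dn1 (bs 1) 228592832 :=
  ok_run 1 Dn1 cls1 g5 dom1 trs1 (bs 1) 0 (List.replicate (1 + 3) 0) 228592832 dts1
    (prfK3 1 (by norm_num) (by norm_num)).1 (prfG2 1 (bs 1))

theorem bd2 : Bd 2 Dn2 (bs 2) 2275714604 :=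
  ok_run 2 Dn2 cls2 g5 dom2 trs2 (bs 2) 0 (List.replicate (2 + 3) 0) 2275714604 dts2
    (prfK3 2 (by norm_num) (by norm_num)).1 (prfG2 2 (bs 2))

theorem bd3 : Bd 3 Dn3 (bs 3) 16514445838 :=
  ok_run 3 Dn3 cls3 g5 dom3 trs3 (bs 3) 0 (List.replicate (3 + 3) 0) 16514445838 dts3
    (prfK3 3 (by norm_num) (by norm_num)).1 (prfG2 3 (bs 3))

theorem bd4 : Bd 4 Dn4 (bs 4) 461189803827 :=
  root4 (prfK3 4 (by norm_num) (by norm_num)).1 (prfG2 4 (bs 4))

theorem jk1 : Jk 10 1 (2187 / 4) ≤ ENNReal.ofReal (228592832 / 1000000000000) := by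
  have h := bd1
  unfold Bd at h
  rw [(prfK3 1 (by norm_num) (by norm_num)).2] at h
  unfold Jk
  calc _ ≤ ENNReal.ofReal (1 / ((1 : ℕ).factorial : ℝ)) *
        ENNReal.ofReal ((228592832 : ℕ) / (Sc : ℝ)) := by
        gcongr
        exact h
    _ ≤ _ := by
        rw [← ENNReal.ofReal_mul (by positivity)]
        refine ENNReal.ofReal_le_ofReal ?_
        norm_num [Sc, Nat.factorial]

theorem jk2 : Jk 10 2 (2187 / 4) ≤ ENNReal.ofReal (2275714604 / 1000000000000 / 2) := by
  have h := bd2
  unfold Bd at h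
  rw [(prfK3 2 (by norm_num) (by norm_num)).2] at h
  unfold Jk
  calc _ ≤ ENNReal.ofReal (1 / ((2 : ℕ).factorial : ℝ)) *
        ENNReal.ofReal ((2275714604 : ℕ) / (Sc : ℝ)) := by
        gcongr
        exact h
    _ ≤ _ := by
        rw [← ENNReal.ofReal_mul (by positivity)]
        refine ENNReal.ofReal_le_ofReal ?_
        norm_num [Sc, Nat.factorial]

theorem jk3 : Jk 10 3 (2187 / 4) ≤ ENNReal.ofReal (16514445838 / 1000000000000 / 6) := by
  have h := bd3
  unfold Bd at h
  rw [(prfK3 3 (by norm_num) (by norm_num)).2] at h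
  unfold Jk
  calc _ ≤ ENNReal.ofReal (1 / ((3 : ℕ).factorial : ℝ)) *
        ENNReal.ofReal ((16514445838 : ℕ) / (Sc : ℝ)) := by
        gcongr
        exact h
    _ ≤ _ := by
        rw [← ENNReal.ofReal_mul (by positivity)]
        refine ENNReal.ofReal_le_ofReal ?_
        norm_num [Sc, Nat.factorial]

theorem jh4 : JH 10 3 (2187 / 4) ≤ ENNReal.ofReal (461189803827 / 1000000000000 / 24) := by
  have h := bd4
  unfold Bd at h
  rw [(prfK3 4 (by norm_num) (by norm_num)).2] at h
  unfold JH
  calc _ ≤ ENNReal.ofReal (1 / ((3 + 1 : ℕ).factorial : ℝ)) *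
        ENNReal.ofReal ((461189803827 : ℕ) / (Sc : ℝ)) := by
        gcongr
        exact h
    _ ≤ _ := by
        rw [← ENNReal.ofReal_mul (by positivity)]
        refine ENNReal.ofReal_le_ofReal ?_
        norm_num [Sc, Nat.factorial]

/-- The certificate. -/
theorem certBound : ∑ k ∈ Finset.range 3, Jk 10 (k + 1) (2187 / 4) + JH 10 3 (2187 / 4) ≤
    ENNReal.ofReal (23336 / 1000000) := by
  rw [Finset.sum_range_succ, Finset.sum_range_succ, Finset.sum_range_succ, Finset.sum_range_zero,
    zero_add]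
  calc _ ≤ ENNReal.ofReal (228592832 / 1000000000000) +
        ENNReal.ofReal (2275714604 / 1000000000000 / 2) +
        ENNReal.ofReal (16514445838 / 1000000000000 / 6) +
        ENNReal.ofReal (461189803827 / 1000000000000 / 24) := by
        gcongr
        · exact jk1
        · exact jk2
        · exact jk3
        · exact jh4
    _ = ENNReal.ofReal (228592832 / 1000000000000 + 2275714604 / 1000000000000 / 2 +
        16514445838 / 1000000000000 / 6 + 461189803827 / 1000000000000 / 24) := by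
        rw [ENNReal.ofReal_add (by norm_num) (by norm_num),
          ENNReal.ofReal_add (by norm_num) (by norm_num),
          ENNReal.ofReal_add (by norm_num) (by norm_num)]
    _ ≤ _ := ENNReal.ofReal_le_ofReal (by norm_num)

end

end Pool.Agent.Work.MP_122e00_nt.Sharp.Cx
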