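import Pool.Agent.Work.MP_122e00_nt.Sharp.Cert.Stmts
import Pool.Agent.Work.MP_122e00_nt.Bd.B40

set_option autoImplicit false

/-!
# The certificate: basic lemmas for the tree part
-/

namespace Pool.Agent.Work.MP_122e00_nt.Sharp.Cx

open Finset MeasureTheory

open scoped ENNReal

open Gen

namespace GB

theorem nthN_nil (i : ℕ) : nthN [] i = 0 := by
  induction i with
  | zero => rfl
  | succ i ih => exact ih

theorem nthN_zero (a : ℕ) (l : List ℕ) : nthN (a :: l) 0 = a := rfl

theorem nthN_succ (a : ℕ) (l : List ℕ) (i : ℕ) : nthN (a :: l) (i + 1) = nthN l i := rfl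

theorem nth_zero (a : List ℕ) (l : List (List ℕ)) : nth (a :: l) 0 = a := rfl

theorem nth_succ (a : List ℕ) (l : List (List ℕ)) (i : ℕ) : nth (a :: l) (i + 1) = nth l i := rfl

theorem nth_mem : ∀ (l : List (List ℕ)) (i : ℕ), i < l.length → nth l i ∈ l := by
  intro l
  induction l with
  | nil => intro i hi; exact absurd hi (Nat.not_lt_zero _)
  | cons a l ih =>
    intro i hi
    rcases i with _ | i
    · exact List.mem_cons_self
    · exact List.mem_cons_of_mem _ (ih i (by simpa using hi))

theorem hd_eq (w : List ℕ) : hd w = nthN w 0 := rfl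

theorem nthN_tl (w : List ℕ) (i : ℕ) : nthN (tl w) i = nthN w (i + 1) := rfl

/-- The product of two vectors as a sum. -/
theorem dot_eq : ∀ (N : ℕ) (p w : List ℕ), p.length = N →
    dot p w = ∑ i : Fin N, nthN p i.val * nthN w i.val := by
  intro N
  induction N with
  | zero =>
    intro p w h
    rw [List.length_eq_zero_iff] at h
    subst h
    rfl
  | succ N ih =>
    intro p w h
    rcases p with _ | ⟨a, p⟩
    · simp at h
    · rw [Fin.sum_univ_succ]
      have e : dot (a :: p) w = a * hd w + dot p (tl w) := rfl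
      rw [e, ih p (tl w) (by simpa using h)]
      rfl

/-- The sum of a vector. -/
theorem sm_eq : ∀ (N : ℕ) (p : List ℕ), p.length = N → sm p = ∑ i : Fin N, nthN p i.val := by
  intro N
  induction N with
  | zero =>
    intro p h
    rw [List.length_eq_zero_iff] at h
    subst h
    rfl
  | succ N ih =>
    intro p h
    rcases p with _ | ⟨a, p⟩
    · simp at h
    · rw [Fin.sum_univ_succ]
      have e : sm (a :: p) = a + sm p := rfl
      rw [e, ih p (by simpa using h)]
      rfl

theorem allL_iff (f : List ℕ → Bool) : ∀ l : List (List ℕ),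
    allL f l = true ↔ ∀ p ∈ l, f p = true := by
  intro l
  induction l with
  | nil => exact ⟨fun _ p hp => absurd hp (List.not_mem_nil), fun _ => rfl⟩
  | cons a l ih =>
    have e : allL f (a :: l) = cond (f a) (allL f l) false := rfl
    rw [e]
    cases h : f a with
    | false =>
      simp only [cond_false]
      constructor
      · intro h2; exact absurd h2 (by simp)
      · intro h2
        have := h2 a List.mem_cons_self
        rw [h] at this
        exact this
    | true =>
      simp only [cond_true, ih, List.mem_cons, forall_eq_or_imp, h, true_and]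

/-! ### barycentric weights -/

/-- The barycentric weights. -/
noncomputable def wt {n : ℕ} (y : Fin n → ℝ) : Option (Fin n) → ℝ
  | some i => y i
  | none => 1 - ∑ i, y i

theorem wt_sum {n : ℕ} (y : Fin n → ℝ) : ∑ o, wt y o = 1 := by
  rw [Fintype.sum_option]
  simp [wt]

theorem bar_wt {n N : ℕ} (V : Option (Fin n) → Fin N → ℝ) (y : Fin n → ℝ) (q : Fin N) :
    Chamber.bar V y q = ∑ o, wt y o * V o q := by
  rw [Fintype.sum_option]
  simp only [Chamber.bar, wt, Pi.add_apply, Finset.sum_apply, Pi.smul_apply, smul_eq_mul]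
  ring

theorem wt_pos {n : ℕ} (y : Fin n → ℝ) (h0 : ∀ i, 0 < y i) (h1 : ∑ i, y i < 1)
    (o : Option (Fin n)) : 0 < wt y o := by
  rcases o with _ | i
  · exact sub_pos.2 h1
  · exact h0 i

theorem null {n : ℕ} (c : Fin n → ℝ) (b : ℝ) (hc : c ≠ 0) :
    ∀ᵐ y : Fin n → ℝ, ∑ i, c i * y i ≠ b := by
  have h := Two.prfL6 (Fin n) c b hc
  rw [ae_iff]
  simpa using h

/-- Almost all points are interior. -/
theorem ae_int (n : ℕ) (hn : 0 < n) : ∀ᵐ y ∂(volume.restrict (Chamber.T (Fin n))),
    (∀ i, 0 < y i) ∧ ∑ i, y i < 1 := by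
  rw [ae_restrict_iff' (Chamber.measurableSet_T _)]
  have h0 : ∀ᵐ y : Fin n → ℝ, ∀ i : Fin n, y i ≠ 0 := by
    rw [ae_all_iff]
    intro i
    have h := null (fun j => if j = i then (1 : ℝ) else 0) 0 (fun h => by
      have := congrFun h i
      simp at this)
    filter_upwards [h] with y hy
    simpa using hy
  have h1 := null (n := n) (fun _ => 1) 1 (fun h => by
    have := congrFun h ⟨0, hn⟩
    simp at this)
  filter_upwards [h0, h1] with y h0 h1 hy
  exact ⟨fun i => lt_of_le_of_ne (hy.1 i) (h0 i).symm, lt_of_le_of_ne hy.2 (by simpa using h1)⟩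

/-- A linear form. -/
noncomputable def lin {N : ℕ} (c p : Fin N → ℝ) : ℝ := ∑ i, c i * p i

theorem lin_bar {n N : ℕ} (c : Fin N → ℝ) (V : Option (Fin n) → Fin N → ℝ) (y : Fin n → ℝ) :
    lin c (Chamber.bar V y) = ∑ o, wt y o * lin c (V o) := by
  unfold lin
  simp only [bar_wt, Finset.mul_sum]
  rw [Finset.sum_comm]
  refine Finset.sum_congr rfl fun o _ => Finset.sum_congr rfl fun i _ => ?_
  ring

end GB

end Pool.Agent.Work.MP_122e00_nt.Sharp.Cx
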